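import Pool.Agent.Run7.h866.ZP.Deg

/-!
# MP_d83ecd_ag: Zilber-Pink for all but finitely many members, with parameters of bounded degree over
a number field, of arbitrary one-parameter families, from their tropicalizations

The Shimura variety `Y(1)^n` is identified with `ℂ^n` by the elliptic modular function
`jj = j = E₄³ / Δ`. The problem for `Y(1)^n` is the case `k = 0` of the following theorem on
`Y(1)^n × G_m^k`.

**Families.** Let `K ⊂ ℂ` be a countable field and let `P` be an arbitrary finite system of polynomials
with coefficients in `K[t]`, in `n` modular coordinates, `k` torus coordinates and `N` auxiliary
coordinates. The member `X_t` (`member`) is the set of the points `x` of `Y(1)^n × G_m^k` for which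
there is a `y ∈ ℂ^N` such that all polynomials of the system vanish at `(x, y)`, for the given `t`.
So `(X_t)` can be any one-parameter family of subvarieties, or of their images under algebraic maps or
correspondences.

**Tropicalization.** For `α ∈ ℂ` the set `Trop α P` consists of the points `w` of `(ℚ ∪ {∞})^(n+k+N)`
such that for every polynomial of the system the minimum of the numbers `ord_α (coefficient) + β · w`
(over the exponents `β` of its monomials) is attained at two different exponents or is infinite.

**Types of special subvarieties.** The product `Z × C` of a special subvariety `Z` of `Y(1)^n` and a
coset `C` of an algebraic subgroup of the torus has a type `(cls, d, L)`: the partition `cls` of the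
coordinates of `Y(1)^n` which are not constant on `Z` into `r = dim Z` classes, the determinants
`d_i > 0` of the matrices which define `Z`, and the linear subspace `L` of `ℚ^k`, of dimension `dim C`,
which is orthogonal to the characters constant on `C`. A point `w` is compatible with the type
(`Compatible`) if `w_i ≥ 0` for the constant coordinates, for coordinates `i`, `j` in the same class
either `w_i ≥ 0` and `w_j ≥ 0`, or `w_i < 0`, `w_j < 0` and `d_i d_j w_i w_j` is the square of a rational
number, and the torus coordinates of `w` are a vector in `L`.

**Theorem.** Let `m` be an integer (the dimension of the members), `δ` an integer and `D` a finite set of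
algebraic numbers, such that for every type of dimension `r + dim L < n + k - m` there are at least
`2 δ + 1` elements `α` of `D` such that `Trop α P` contains no compatible point (`Generic`). Then for
every number field `E` (generated by a finite set `F` of algebraic numbers) all but finitely many of the
numbers `t` of degree at most `δ` over `E` have the following property: `X_t` has no atypical
intersection with the products `Z × C` (`NoAtypical`), that is, every irreducible closed subset of
`X_t ∩ (Z × C)` has dimension at most `dim (Z × C) + m - (n + k)`, and the same bound holds for the
transcendence degrees of the points of `X_t ∩ (Z × C)` over `K`. The constant coordinates of `Z` can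
be special points or integral over the ring `ℤ[Γ]` generated by a given finite set `Γ` of numbers
algebraic over `K`, and `C` is a coset by a point whose coordinates are units over `ℤ[Γ]`, for instance
a torsion coset.

**Relation to the starting files.** `AlgebraicParameters` (part 1) treats the numbers of degree at most
`δ` over `ℚ`, families of the special form `c_i(t) s_i = A_i(y) / B_i(y)` in `Y(1)^n` and rational
degenerate parameters `α`, at which all `c_i` vanish with independent orders and no point lies on
`m + 1` of the divisors. Here the number field, the algebraic numbers `α` and the family are arbitrary,
and different degenerate members can exclude different types of special subvarieties.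
`MP_22337f_ag.FinitelyGeneratedFields` and `MP_0704bf_ag.TropicalWeierstrassFamilies` are about
parameters in one finitely generated field (`δ = 1`).

**The arithmetic** (`Pool.Agent.Run7.h866.ZP.Deg`). Let `α_0, …, α_{2 δ}` be distinct algebraic numbers and
`W` a finite set of complex numbers. For all but finitely many `t` of degree at most `δ` over `E` one of
the `t - α_i` is not invertible in the ring `ℤ[W, t]`; so there is a valuation ring of `ℂ` containing
`W` in which `t` is near to `α_i`. For the proof `W` is specialized to a set of algebraic numbers. If all
`t - α_i` are invertible then the values at the `α_i` of the minimal polynomial of `t` over a larger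
number field differ by `S`-units, and the unit equation in `deg + 2` terms (over number fields) shows
that there are only finitely many such polynomials.
-/

set_option autoImplicit false

namespace Pool.Agent.Results.MP_d83ecd_ag.BoundedDegreeNumberFields

open MvPolynomial Pool.Agent.R424.TG
open Pool.Agent.Y152.RP.FamM (NoAtypical)

/-- `t` is algebraic of degree at most `δ` over the field generated by `F`. -/
def DegreeAtMost (F : Finset ℂ) (δ : ℕ) (t : ℂ) : Prop :=
  ∃ f : Polynomial ℂ, f ≠ 0 ∧ f.natDegree ≤ δ ∧
    (∀ j, f.coeff j ∈ Subfield.closure (F : Set ℂ)) ∧ f.eval t = 0

/-- **The tropical criterion** for all but finitely many members, with parameters of bounded degree over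
a number field, of arbitrary one-parameter families of subvarieties of `Y(1)^n × G_m^k`. -/
theorem result (K : Subfield ℂ) [Countable K] (κ : Type) [Finite κ] (n k N m : ℕ)
    (P : κ → MvPolynomial ((Fin n ⊕ Fin k) ⊕ Fin N) (Polynomial K)) (D : Finset ℂ)
    (hD : ∀ α ∈ D, IsAlgebraic ℚ α) (δ : ℕ) (hgen : Generic m (2 * δ + 1) P D)
    (Γ : Finset ℂ) (hΓ : ∀ γ ∈ Γ, IsAlgebraic K γ) (F : Finset ℂ)
    (hF : ∀ z ∈ F, IsAlgebraic ℚ z) :
    {t : ℂ | DegreeAtMost F δ t ∧
      ¬ NoAtypical (algebraMap (Algebra.adjoin ℤ (Γ : Set ℂ)) ℂ) K m (member t P)}.Finite :=
  Pool.Agent.Run7.h866.ZP.family K κ n k N m P D (fun α hα => (hD α hα).tower_top K) Γ hΓ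
    {t | DegreeAtMost F δ t} fun r cls d L hd hr => by
      obtain ⟨I, hI, hc, hno⟩ := hgen r cls d L hd hr
      exact ⟨I, hI, Pool.Agent.Run7.h866.ZP.hits_degree F hF I (fun z hz => hD z (hI hz)) δ hc,
        hno⟩

end Pool.Agent.Results.MP_d83ecd_ag.BoundedDegreeNumberFields
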