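import Pool.Agent.Run7.h866.ZP.Rec

/-!
# MP_d83ecd_ag: Zilber-Pink for all but finitely many members, with parameters in a linear recurrence
sequence, of arbitrary one-parameter families with one degenerate member

The Shimura variety `Y(1)^n` is identified with `ℂ^n` by the elliptic modular function
`jj = j = E₄³ / Δ`. The problem for `Y(1)^n` is the case `k = 0` of the following theorem on
`Y(1)^n × G_m^k`.

**Families.** Let `K ⊂ ℂ` be a countable field and let `P` be an arbitrary finite system of polynomials
with coefficients in `K[t]`, in `n` modular coordinates, `k` torus coordinates and `N` auxiliary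
coordinates. The member `X_t` (`member`) is the set of the points `x` of `Y(1)^n × G_m^k` for which
there is a `y ∈ ℂ^N` such that all polynomials of the system vanish at `(x, y)`, for the given `t`.
So `(X_t)` can be any one-parameter family of subvarieties, or of their images under algebraic maps or
correspondences.

**Tropicalization.** For `α ∈ ℂ` the set `Trop α P` consists of the points `w` of `(ℚ ∪ {∞})^(n+k+N)`
such that for every polynomial of the system the minimum of the numbers `ord_α (coefficient) + β · w`
(over the exponents `β` of its monomials) is attained at two different exponents or is infinite.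

**Types of special subvarieties.** The product `Z × C` of a special subvariety `Z` of `Y(1)^n` and a
coset `C` of an algebraic subgroup of the torus has a type `(cls, d, L)`: the partition `cls` of the
coordinates of `Y(1)^n` which are not constant on `Z` into `r = dim Z` classes, the determinants
`d_i > 0` of the matrices which define `Z`, and the linear subspace `L` of `ℚ^k`, of dimension `dim C`,
which is orthogonal to the characters constant on `C`. A point `w` is compatible with the type
(`Compatible`) if `w_i ≥ 0` for the constant coordinates, for coordinates `i`, `j` in the same class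
either `w_i ≥ 0` and `w_j ≥ 0`, or `w_i < 0`, `w_j < 0` and `d_i d_j w_i w_j` is the square of a rational
number, and the torus coordinates of `w` are a vector in `L`.

**Parameters.** Let `a(n) = b + c_1 λ_1^n + … + c_q λ_q^n`, `n ∈ ℤ`, where `b`, the `c_i ≠ 0` and the
`λ_i ≠ 0` are algebraic numbers, and no `λ_i` and no quotient `λ_i / λ_j`, `i ≠ j`, is a root of unity
(`Nondegenerate`). These are the nondegenerate linear recurrence sequences with simple roots, for
instance the Fibonacci and Lucas numbers and `2^n + 3^n`.

**Theorem.** Let `m` be an integer (the dimension of the members) and `D` a finite set of algebraic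
numbers, such that for every type of dimension `r + dim L < n + k - m` there is an element `α` of `D`
such that `Trop α P` contains no compatible point (`Generic`). Let `q ≥ 2`, or `q = 1` and `b ∉ D`. Then
all but finitely many of the integers `ν` have the following property: the member `X_{a(ν)}` has no
atypical intersection with the products `Z × C` (`NoAtypical`), that is, every irreducible closed
subset of `X_{a(ν)} ∩ (Z × C)` has dimension at most `dim (Z × C) + m - (n + k)`, and the same bound
holds for the transcendence degrees of the points of `X_{a(ν)} ∩ (Z × C)` over `K`. The constant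
coordinates of `Z` can be special points or integral over the ring `ℤ[Γ]` generated by a given finite
set `Γ` of numbers algebraic over `K`, and `C` is a coset by a point whose coordinates are units over
`ℤ[Γ]`, for instance a torsion coset.

One degenerate parameter is sufficient. In the results on all elements of a finitely generated ring
or field (the starting files `MP_22337f_ag.FinitelyGeneratedFields`,
`MP_a325a5_ag.FinitelyGeneratedFields` and `MP_0704bf_ag.TropicalWeierstrassFamilies`) two or three are
necessary for every type (one for units of a ring); `MP_130685_nt.TropicalFewExceptions` needs one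
and admits `C (log B)^s` exceptions among the integers up to `B`, so that it says nothing about
sequences of exponential growth.

**The arithmetic** (`Pool.Agent.Run7.h866.ZP.Rec`). For every algebraic number `α` (different from `b` if
`q = 1`) and every finite set `W` of complex numbers there are only finitely many `ν` such that
`a(ν) - α` is invertible in the ring `ℤ[W, a(ν)]`: after a specialization `a(ν) - α` is an `S`-unit `v` of
a number field, `v` is proportional to one of the terms by the unit equation in `q + 2` terms, with
factor in a finite set, and a nondegenerate sum of exponentials has only finitely many zeros. So for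
the other `ν` there is a valuation ring of `ℂ` containing `W` in which `a(ν)` is near to `α`.
-/

set_option autoImplicit false

namespace Pool.Agent.Results.MP_d83ecd_ag.LinearRecurrences

open MvPolynomial Pool.Agent.R424.TG
open Pool.Agent.Y152.RP.FamM (NoAtypical)

/-- `b`, the `c i` and the `lam i` are algebraic, the `c i` and the `lam i` are not zero, and no `lam i`
and no quotient of two different ones is a root of unity. -/
structure Nondegenerate {q : ℕ} (b : ℂ) (c lam : Fin q → ℂ) : Prop where
  alg_b : IsAlgebraic ℚ b
  alg_c : ∀ i, IsAlgebraic ℚ (c i)
  alg_lam : ∀ i, IsAlgebraic ℚ (lam i)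
  c_ne : ∀ i, c i ≠ 0
  lam_ne : ∀ i, lam i ≠ 0
  not_root : ∀ i, ∀ s : ℕ, 0 < s → lam i ^ s ≠ 1
  not_quot : ∀ i j, i ≠ j → ∀ s : ℕ, 0 < s → lam i ^ s ≠ lam j ^ s

/-- The term `a(ν) = b + ∑ i, c i * lam i ^ ν` of the sequence. -/
noncomputable def term {q : ℕ} (b : ℂ) (c lam : Fin q → ℂ) (ν : ℤ) : ℂ :=
  b + ∑ i, c i * lam i ^ ν

/-- Zilber-Pink for all but finitely many members, with parameters in a nondegenerate linear
recurrence sequence, of arbitrary one-parameter families of subvarieties of `Y(1)^n × G_m^k` with one
degenerate member. -/
theorem result (K : Subfield ℂ) [Countable K] (κ : Type) [Finite κ] (n k N m : ℕ)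
    (P : κ → MvPolynomial ((Fin n ⊕ Fin k) ⊕ Fin N) (Polynomial K)) (D : Finset ℂ)
    (hD : ∀ α ∈ D, IsAlgebraic ℚ α) (hgen : Generic m 1 P D)
    (Γ : Finset ℂ) (hΓ : ∀ γ ∈ Γ, IsAlgebraic K γ)
    (q : ℕ) (b : ℂ) (c lam : Fin q → ℂ) (h : Nondegenerate b c lam)
    (hq : 2 ≤ q ∨ (q = 1 ∧ b ∉ D)) :
    {ν : ℤ | ¬ NoAtypical (algebraMap (Algebra.adjoin ℤ (Γ : Set ℂ)) ℂ) K m
      (member (term b c lam ν) P)}.Finite := by
  classical
  have hc : ∀ i, IsAlgebraic ℚ (c i) ∧ c i ≠ 0 := fun i => ⟨h.alg_c i, h.c_ne i⟩
  have hl : ∀ i, IsAlgebraic ℚ (lam i) ∧ lam i ≠ 0 := fun i => ⟨h.alg_lam i, h.lam_ne i⟩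
  have hfin := Pool.Agent.Run7.h866.ZP.family K κ n k N m P D (fun α hα => (hD α hα).tower_top K) Γ hΓ
    (Set.range (Pool.Agent.Run7.h866.ZP.term b c lam)) fun r cls d L hd hr => by
      obtain ⟨I, hI, hc', hno⟩ := hgen r cls d L hd hr
      obtain ⟨α, hα⟩ := Finset.card_pos.1 (show 0 < I.card by omega)
      refine ⟨{α}, by simpa using hI hα, Pool.Agent.Run7.h866.ZP.hits_term b c lam h.alg_b hc hl
        h.not_root h.not_quot α (hD α (hI hα)) ?_, fun z hz => ?_⟩
      · rcases hq with h2 | ⟨h1, hb⟩
        · exact Or.inl h2
        · refine Or.inr ⟨by omega, ?_⟩
          rintro rfl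
          exact hb (hI hα)
      · rw [Finset.mem_singleton.1 hz]
        exact hno α hα
  refine (hfin.biUnion (t := fun t => {ν : ℤ | Pool.Agent.Run7.h866.ZP.term b c lam ν = t})
    fun t _ => Pool.Agent.Run7.h866.ZP.finite_fibre b c lam h.alg_b hc hl h.not_root h.not_quot
      (by rcases hq with h2 | ⟨h1, -⟩ <;> omega) t).subset ?_
  intro ν hν
  exact Set.mem_biUnion (x := Pool.Agent.Run7.h866.ZP.term b c lam ν) ⟨⟨ν, rfl⟩, hν⟩ rfl

end Pool.Agent.Results.MP_d83ecd_ag.LinearRecurrences
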