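import Pool.Agent.Run7.h866.ZP.Rad

/-!
# MP_d83ecd_ag: Zilber-Pink for all but finitely many members, with radical parameters, of arbitrary
one-parameter families, from their tropicalizations

The Shimura variety `Y(1)^n` is identified with `ℂ^n` by the elliptic modular function
`jj = j = E₄³ / Δ`. The problem for `Y(1)^n` is the case `k = 0` of the following theorem on
`Y(1)^n × G_m^k`.

**Families.** Let `K ⊂ ℂ` be a countable field and let `P` be an arbitrary finite system of polynomials
with coefficients in `K[t]`, in `n` modular coordinates, `k` torus coordinates and `N` auxiliary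
coordinates. The member `X_t` (`member`) is the set of the points `x` of `Y(1)^n × G_m^k` for which
there is a `y ∈ ℂ^N` such that all polynomials of the system vanish at `(x, y)`, for the given `t`.
So `(X_t)` can be any one-parameter family of subvarieties, or of their images under algebraic maps or
correspondences.

**Tropicalization.** For `α ∈ ℂ` the set `Trop α P` consists of the points `w` of `(ℚ ∪ {∞})^(n+k+N)`
such that for every polynomial of the system the minimum of the numbers `ord_α (coefficient) + β · w`
(over the exponents `β` of its monomials) is attained at two different exponents or is infinite.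

**Types of special subvarieties.** The product `Z × C` of a special subvariety `Z` of `Y(1)^n` and a
coset `C` of an algebraic subgroup of the torus has a type `(cls, d, L)`: the partition `cls` of the
coordinates of `Y(1)^n` which are not constant on `Z` into `r = dim Z` classes, the determinants
`d_i > 0` of the matrices which define `Z`, and the linear subspace `L` of `ℚ^k`, of dimension `dim C`,
which is orthogonal to the characters constant on `C`. A point `w` is compatible with the type
(`Compatible`) if `w_i ≥ 0` for the constant coordinates, for coordinates `i`, `j` in the same class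
either `w_i ≥ 0` and `w_j ≥ 0`, or `w_i < 0`, `w_j < 0` and `d_i d_j w_i w_j` is the square of a rational
number, and the torus coordinates of `w` are a vector in `L`.

**Parameters.** A complex number `t` is *radical* if some power `t^M`, `M > 0`, is a rational number
(`IsRadical`). The radical numbers have arbitrarily large degrees; they are the elements of the
division group of `ℚ^×` (of infinite rank, with all the roots of unity as torsion) and `0`.

**Theorem.** Let `m` be an integer (the dimension of the members) and `D` a finite set of rational
numbers.
1. Let the elements of `D` be nonzero, with distinct absolute values. If for every type of dimension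
   `r + dim L < n + k - m` there are at least three elements `α` of `D` such that `Trop α P` contains no
   compatible point, then all but finitely many of the radical numbers `t` have the following
   property: `X_t` has no atypical intersection with the products `Z × C` (`NoAtypical`), that is, every
   irreducible closed subset of `X_t ∩ (Z × C)` has dimension at most `dim (Z × C) + m - (n + k)`, and
   the same bound holds for the transcendence degrees of the points of `X_t ∩ (Z × C)` over `K`.
2. Let `|α| ≠ 0, 1` for all `α ∈ D`. If for every type of dimension `r + dim L < n + k - m` there is one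
   element `α` of `D` such that `Trop α P` contains no compatible point, then the same is true for all
   but finitely many of the roots of unity `t`.

The constant coordinates of `Z` can be special points or integral over the ring `ℤ[Γ]` generated by a
given finite set `Γ` of numbers algebraic over `K`, and `C` is a coset by a point whose coordinates
are units over `ℤ[Γ]`, for instance a torsion coset.

**Relation to the starting files.** `AlgebraicParameters` (parts 2 and 3), and
`MP_defd1c_ag.DivisionGroupParameters` for `Y(1)^n × G_m^k`, treat the same parameters and families of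
the special form `c_i(t) s_i = A_i(y) / B_i(y)`, where at `L + 3` (for roots of unity `L + 1`) rational
numbers, `L = n (n - 1) / 2 + k 2^k`, all `c_i` vanish with independent orders and no point lies on
`m + 1` of the divisors. Here the family is arbitrary, and different degenerate members can exclude
different types of special subvarieties; three degenerate members (one for roots of unity) can be
sufficient. The arithmetic of the parameters is that of these files (`Pool.Agent.Y152.RP.Main`), the
tropical criterion that of `Pool.Agent.R424.TG.Main`, which was used for parameters in one finitely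
generated field (`MP_0704bf_ag.TropicalWeierstrassFamilies`) and for all but few rational parameters
(`MP_130685_nt.TropicalFewExceptions`).
-/

set_option autoImplicit false

namespace Pool.Agent.Results.MP_d83ecd_ag.RadicalTropical

open MvPolynomial Pool.Agent.R424.TG
open Pool.Agent.Y152.RP.FamM (NoAtypical)

/-- Some power of `t` with positive exponent is a rational number. -/
def IsRadical (t : ℂ) : Prop := ∃ M : ℕ, 0 < M ∧ ∃ a : ℚ, t ^ M = (a : ℂ)

/-- `t` is a root of unity. -/
def IsRootOfUnity (t : ℂ) : Prop := ∃ M : ℕ, 0 < M ∧ t ^ M = 1

/-- For every type `(cls, d, L)` of special subvarieties of dimension less than `n + k - m` there are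
at least `σ` elements `α` of `D` such that the tropicalization at `α` has no compatible point. -/
def GenericRat {K : Subfield ℂ} {n k N : ℕ} {κ : Type} (m σ : ℕ)
    (P : κ → MvPolynomial ((Fin n ⊕ Fin k) ⊕ Fin N) (Polynomial K)) (D : Finset ℚ) : Prop :=
  ∀ (r : ℕ) (cls : Fin n → Option (Fin r)) (d : Fin n → ℕ) (L : Submodule ℚ (Fin k → ℚ)),
    (∀ i, 0 < d i) → r + Module.finrank ℚ L + m < n + k →
      ∃ I ⊆ D, σ ≤ I.card ∧ ∀ α ∈ I, ∀ w ∈ Trop (α : ℂ) P, ¬ Compatible cls d L w

/-- **The tropical criterion** for all but finitely many members, with radical parameters and with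
roots of unity as parameters, of arbitrary one-parameter families of subvarieties of
`Y(1)^n × G_m^k`. -/
theorem result (K : Subfield ℂ) [Countable K] (κ : Type) [Finite κ] (n k N m : ℕ)
    (P : κ → MvPolynomial ((Fin n ⊕ Fin k) ⊕ Fin N) (Polynomial K)) (D : Finset ℚ)
    (Γ : Finset ℂ) (hΓ : ∀ γ ∈ Γ, IsAlgebraic K γ) :
    ((∀ α ∈ D, α ≠ 0) → (∀ α ∈ D, ∀ β ∈ D, α ≠ β → |α| ≠ |β|) → GenericRat m 3 P D →
      {t : ℂ | IsRadical t ∧
        ¬ NoAtypical (algebraMap (Algebra.adjoin ℤ (Γ : Set ℂ)) ℂ) K m (member t P)}.Finite) ∧
    ((∀ α ∈ D, α ≠ 0 ∧ |α| ≠ 1) → GenericRat m 1 P D →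
      {t : ℂ | IsRootOfUnity t ∧
        ¬ NoAtypical (algebraMap (Algebra.adjoin ℤ (Γ : Set ℂ)) ℂ) K m
          (member t P)}.Finite) := by
  classical
  have hDK : ∀ α ∈ D.image (fun a : ℚ => (a : ℂ)), IsAlgebraic K α := by
    intro α hα
    obtain ⟨a, -, rfl⟩ := Finset.mem_image.1 hα
    exact (isAlgebraic_algebraMap (R := ℚ) (A := ℂ) a).tower_top K
  refine ⟨fun h0 habs hgen => ?_, fun h0 hgen => ?_⟩
  · refine Pool.Agent.Run7.h866.ZP.family K κ n k N m P (D.image fun a : ℚ => (a : ℂ)) hDK Γ hΓ
      {t | IsRadical t} fun r cls d L hd hr => ?_
    obtain ⟨I, hI, hc, hno⟩ := hgen r cls d L hd hr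
    refine ⟨I.image fun a : ℚ => (a : ℂ), Finset.image_subset_image hI,
      Pool.Agent.Run7.h866.ZP.hits_radical I (fun α hα => h0 α (hI hα))
        (fun α hα β hβ => habs α (hI hα) β (hI hβ)) hc, ?_⟩
    intro α hα
    obtain ⟨a, ha, rfl⟩ := Finset.mem_image.1 hα
    exact hno a ha
  · refine Pool.Agent.Run7.h866.ZP.family K κ n k N m P (D.image fun a : ℚ => (a : ℂ)) hDK Γ hΓ
      {t | IsRootOfUnity t} fun r cls d L hd hr => ?_
    obtain ⟨I, hI, hc, hno⟩ := hgen r cls d L hd hr
    obtain ⟨a, ha⟩ := Finset.card_pos.1 (show 0 < I.card by omega)
    refine ⟨{(a : ℂ)}, ?_, Pool.Agent.Run7.h866.ZP.hits_unity a (h0 a (hI ha)).1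
      (h0 a (hI ha)).2, ?_⟩
    · intro z hz
      rw [Finset.mem_singleton.1 hz]
      exact Finset.mem_image_of_mem _ (hI ha)
    · intro z hz
      rw [Finset.mem_singleton.1 hz]
      exact hno a ha

end Pool.Agent.Results.MP_d83ecd_ag.RadicalTropical
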