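import Pool.Agent.Run7.h866.ZP.Orb

/-!
# MP_d83ecd_ag: Zilber-Pink for all but finitely many members, with parameters in the forward orbits
of a semigroup of rational functions, of arbitrary one-parameter families with one degenerate member

The Shimura variety `Y(1)^n` is identified with `ℂ^n` by the elliptic modular function
`jj = j = E₄³ / Δ`. The problem for `Y(1)^n` is the case `k = 0` of the following theorem on
`Y(1)^n × G_m^k`.

**Families.** Let `K ⊂ ℂ` be a countable field and let `P` be an arbitrary finite system of polynomials
with coefficients in `K[t]`, in `n` modular coordinates, `k` torus coordinates and `N` auxiliary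
coordinates. The member `X_t` (`member`) is the set of the points `x` of `Y(1)^n × G_m^k` for which
there is a `y ∈ ℂ^N` such that all polynomials of the system vanish at `(x, y)`, for the given `t`.
So `(X_t)` can be any one-parameter family of subvarieties, or of their images under algebraic maps or
correspondences.

**Tropicalization.** For `α ∈ ℂ` the set `Trop α P` consists of the points `w` of `(ℚ ∪ {∞})^(n+k+N)`
such that for every polynomial of the system the minimum of the numbers `ord_α (coefficient) + β · w`
(over the exponents `β` of its monomials) is attained at two different exponents or is infinite.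

**Types of special subvarieties.** The product `Z × C` of a special subvariety `Z` of `Y(1)^n` and a
coset `C` of an algebraic subgroup of the torus has a type `(cls, d, L)`: the partition `cls` of the
coordinates of `Y(1)^n` which are not constant on `Z` into `r = dim Z` classes, the determinants
`d_i > 0` of the matrices which define `Z`, and the linear subspace `L` of `ℚ^k`, of dimension `dim C`,
which is orthogonal to the characters constant on `C`. A point `w` is compatible with the type
(`Compatible`) if `w_i ≥ 0` for the constant coordinates, for coordinates `i`, `j` in the same class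
either `w_i ≥ 0` and `w_j ≥ 0`, or `w_i < 0`, `w_j < 0` and `d_i d_j w_i w_j` is the square of a rational
number, and the torus coordinates of `w` are a vector in `L`.

**Parameters.** Let `p_i / q_i`, `i = 1, …, l`, be rational functions whose coefficients are algebraic
over `K`. For a word `w = i_1 … i_s` and `s ∈ ℂ` let `w(s)` be the value
`φ_{i_1} (φ_{i_2} (… φ_{i_s} (s)))`, `φ_i = p_i / q_i`, if all the intermediate values are finite (`Image`).
For a set `S` the set `Orbits p q ρ S` is the union of the sets `w(S)` for all words `w` of length at
least `ρ`; it contains the forward orbit of each element of `S` but finitely many of its members.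

**Theorem.** Let `m` be an integer (the dimension of the members), `ρ` an integer and `D` a finite set of
numbers algebraic over `K`. We assume that for every type of dimension `r + dim L < n + k - m` there is
a subset `I` of `D` such that `Trop α P` contains no compatible point for all `α ∈ I`, and such that
under every word `w` of length `ρ` the elements of `I` have together at least `σ` preimages
(`GenericUnder`). This can be a set with one element, if this element has `σ` preimages under the words
of length `ρ`.
1. If `σ = 3` then for every finitely generated field `E` of numbers algebraic over `K` all but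
   finitely many of the elements `t` of `Orbits p q ρ E` have the following property: `X_t` has no
   atypical intersection with the products `Z × C` (`NoAtypical`), that is, every irreducible closed
   subset of `X_t ∩ (Z × C)` has dimension at most `dim (Z × C) + m - (n + k)`, and the same bound
   holds for the transcendence degrees of the points of `X_t ∩ (Z × C)` over `K`.
2. If the `p_i / q_i` are polynomials (`q_i = 1`) and `σ = 2` then the same is true for all but finitely
   many of the elements of `Orbits p q ρ R` for every finitely generated ring `R` of numbers algebraic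
   over `K`.

The constant coordinates of `Z` can be special points or integral over the ring `ℤ[Γ]` generated by a
given finite set `Γ` of numbers algebraic over `K`, and `C` is a coset by a point whose coordinates
are units over `ℤ[Γ]`, for instance a torsion coset.

So the theorem is about all orbits of points over `E` simultaneously; there are only finitely many
exceptions in their union (from the length `ρ` on). For example let `φ` be a rational function of degree
at least three with coefficients in `E` and let `α` be a number with three different preimages under
`φ`. If no `Trop α P` contains a point which is compatible with a type of dimension less than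
`n + k - m` then all but finitely many of the members `X_t`, `t ∈ φ(E)`, have no atypical intersection.
In the results on all elements `t` of a finitely generated field (the starting files
`MP_22337f_ag.FinitelyGeneratedFields`, `MP_a325a5_ag.FinitelyGeneratedFields` and
`MP_0704bf_ag.TropicalWeierstrassFamilies`; this is the case `l = 0`, `ρ = 0`) three degenerate
parameters are necessary for every type, and two for the elements of a ring.

The proof: if `s` is near to a preimage `β` of `α` at a place at which `β` and the coefficients are
integral and `q_i (β)` is a unit, then `w(s)` is near to `α`. By the unit equation in finitely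
generated rings all but finitely many `s` are near to one of three given numbers. The places have
properties which make the points of `X_t ∩ (Z × C)` of large transcendence degree into compatible
points of the tropicalization.
-/

set_option autoImplicit false

namespace Pool.Agent.Results.MP_d83ecd_ag.SemigroupOrbits

open MvPolynomial Pool.Agent.R424.TG
open Pool.Agent.Y152.RP.FamM (NoAtypical)

/-- `t` is the value of the rational function `p / q` at `s`, which is not a pole. -/
def IsValue (p q : Polynomial ℂ) (s t : ℂ) : Prop :=
  q.eval s ≠ 0 ∧ t * q.eval s = p.eval s

/-- `t` is the image of `s` under the composition of the rational functions `p i / q i` for the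
letters `i` of the word `w`; the last letter is applied first. All the intermediate values are
finite. -/
def Image {l : ℕ} (p q : Fin l → Polynomial ℂ) : List (Fin l) → ℂ → ℂ → Prop
  | [], s, t => t = s
  | i :: w, s, t => ∃ u, Image p q w s u ∧ IsValue (p i) (q i) u t

/-- The union of the images of `S` under all words of length at least `ρ`. -/
def Orbits {l : ℕ} (p q : Fin l → Polynomial ℂ) (ρ : ℕ) (S : Set ℂ) : Set ℂ :=
  {t | ∃ w : List (Fin l), ρ ≤ w.length ∧ ∃ s ∈ S, Image p q w s t}

/-- The elements of `I` have at least `σ` preimages, algebraic over `K`, under the word `w`. -/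
def HasPreimages (K : Subfield ℂ) {l : ℕ} (p q : Fin l → Polynomial ℂ) (w : List (Fin l)) (σ : ℕ)
    (I : Finset ℂ) : Prop :=
  ∃ J : Finset ℂ, σ ≤ J.card ∧ ∀ β ∈ J, IsAlgebraic K β ∧ ∃ α ∈ I, Image p q w β α

/-- For every type `(cls, d, L)` of special subvarieties of dimension less than `n + k - m` there is a
subset `I` of `D`, with at least `σ` preimages under every word of length `ρ`, such that the
tropicalizations at the elements of `I` have no compatible point. -/
def GenericUnder {K : Subfield ℂ} {n k N : ℕ} {κ : Type} {l : ℕ} (p q : Fin l → Polynomial ℂ)
    (ρ σ m : ℕ) (P : κ → MvPolynomial ((Fin n ⊕ Fin k) ⊕ Fin N) (Polynomial K)) (D : Finset ℂ) :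
    Prop :=
  ∀ (r : ℕ) (cls : Fin n → Option (Fin r)) (d : Fin n → ℕ) (L : Submodule ℚ (Fin k → ℚ)),
    (∀ i, 0 < d i) → r + Module.finrank ℚ L + m < n + k →
      ∃ I ⊆ D, (∀ w : List (Fin l), w.length = ρ → HasPreimages K p q w σ I) ∧
        ∀ α ∈ I, ∀ w ∈ Trop α P, ¬ Compatible cls d L w

theorem image_iff {l : ℕ} (p q : Fin l → Polynomial ℂ) (w : List (Fin l)) (s t : ℂ) :
    Image p q w s t ↔ Pool.Agent.Run7.h866.ZP.Image p q w s t := by
  induction w generalizing t with
  | nil => exact Iff.rfl
  | cons i w ih =>
    constructor
    · rintro ⟨u, h1, h2⟩
      exact ⟨u, (ih u).1 h1, h2⟩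
    · rintro ⟨u, h1, h2⟩
      exact ⟨u, (ih u).2 h1, h2⟩

/-- Zilber-Pink for all but finitely many members, with parameters in the forward orbits of a
semigroup of rational functions, of arbitrary one-parameter families of subvarieties of
`Y(1)^n × G_m^k`. -/
theorem result (K : Subfield ℂ) [Countable K] (κ : Type) [Finite κ] (n k N m : ℕ)
    (P : κ → MvPolynomial ((Fin n ⊕ Fin k) ⊕ Fin N) (Polynomial K)) (D : Finset ℂ)
    (hD : ∀ α ∈ D, IsAlgebraic K α) (Γ : Finset ℂ) (hΓ : ∀ γ ∈ Γ, IsAlgebraic K γ)
    (l ρ : ℕ) (p q : Fin l → Polynomial ℂ) (hp : ∀ i j, IsAlgebraic K ((p i).coeff j))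
    (hq : ∀ i j, IsAlgebraic K ((q i).coeff j)) (F : Finset ℂ) (hF : ∀ z ∈ F, IsAlgebraic K z) :
    (GenericUnder p q ρ 3 m P D →
      {t : ℂ | t ∈ Orbits p q ρ (Subfield.closure (F : Set ℂ) : Set ℂ) ∧
        ¬ NoAtypical (algebraMap (Algebra.adjoin ℤ (Γ : Set ℂ)) ℂ) K m (member t P)}.Finite) ∧
    ((∀ i, q i = 1) → GenericUnder p q ρ 2 m P D →
      {t : ℂ | t ∈ Orbits p q ρ (Subring.closure (F : Set ℂ) : Set ℂ) ∧
        ¬ NoAtypical (algebraMap (Algebra.adjoin ℤ (Γ : Set ℂ)) ℂ) K m
          (member t P)}.Finite) := by
  have horb : ∀ S, Orbits p q ρ S = Pool.Agent.Run7.h866.ZP.orbits p q ρ S := by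
    intro S
    ext t
    simp only [Orbits, Pool.Agent.Run7.h866.ZP.orbits, image_iff]
  have hpre : ∀ (w : List (Fin l)) (σ : ℕ) (I : Finset ℂ), HasPreimages K p q w σ I →
      ∃ J : Finset ℂ, Pool.Agent.Run7.h866.ZP.IsPreimageSet K p q w I J ∧ σ ≤ J.card := by
    rintro w σ I ⟨J, hJ, h⟩
    refine ⟨J, fun β hβ => ?_, hJ⟩
    obtain ⟨h1, α, hα, h2⟩ := h β hβ
    exact ⟨h1, α, hα, (image_iff p q w β α).1 h2⟩
  refine ⟨fun hgen => ?_, fun hq1 hgen => ?_⟩
  · rw [horb]
    refine Pool.Agent.Run7.h866.ZP.family K κ n k N m P D hD Γ hΓ _ fun r cls d L hd hr => ?_
    obtain ⟨I, hI, hw, hno⟩ := hgen r cls d L hd hr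
    exact ⟨I, hI, Pool.Agent.Run7.h866.ZP.hits_orbits_field hp hq ρ F hF
      fun w hl => hpre w 3 I (hw w hl), hno⟩
  · have hq' : q = fun _ => 1 := funext hq1
    subst hq'
    rw [horb]
    refine Pool.Agent.Run7.h866.ZP.family K κ n k N m P D hD Γ hΓ _ fun r cls d L hd hr => ?_
    obtain ⟨I, hI, hw, hno⟩ := hgen r cls d L hd hr
    exact ⟨I, hI, Pool.Agent.Run7.h866.ZP.hits_orbits_ring hp ρ F hF
      fun w hl => hpre w 2 I (hw w hl), hno⟩

end Pool.Agent.Results.MP_d83ecd_ag.SemigroupOrbits
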